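import Pool.Agent.H31.CN.T5

/-!
# Forms of squarefree discriminant have only trivial automorphisms
-/

set_option autoImplicit false

open scoped Real Matrix MatrixGroups

namespace Pool.Agent.H45.CN

open Pool.Agent.H31.CN

theorem pf_AUT : T_AUT := by
  rintro D ⟨A, B, C⟩ g hD hsq ⟨hA, hdsc⟩ hact
  have hdet : g 0 0 * g 1 1 - g 0 1 * g 1 0 = 1 := by
    have := g.2
    rw [Matrix.det_fin_two] at this
    exact this
  obtain ⟨a, ha⟩ : ∃ a, a = g 0 0 := ⟨_, rfl⟩
  obtain ⟨b, hb⟩ : ∃ b, b = g 0 1 := ⟨_, rfl⟩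
  obtain ⟨c, hc⟩ : ∃ c, c = g 1 0 := ⟨_, rfl⟩
  obtain ⟨d, hd⟩ : ∃ d, d = g 1 1 := ⟨_, rfl⟩
  simp only [act, val, Prod.mk.injEq, ← ha, ← hb, ← hc, ← hd] at hact
  rw [← ha, ← hb, ← hc, ← hd] at hdet
  simp only [dsc] at hA hdsc
  obtain ⟨h1, h2, h3⟩ := hact
  have e1 : A * (d - a) = B * c := by
    have : 2 * (A * (d - a)) = 2 * (B * c) := by
      linear_combination (-2 * d) * h1 + c * h2 + (2 * A * a + B * c) * hdet
    linarith
  have e2 : A * b = -(C * c) := by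
    have : 2 * (A * b) = 2 * (-(C * c)) := by
      linear_combination d * h2 - 2 * c * h3 - (2 * A * b + B * d) * hdet
    linarith
  have hg1 : Int.gcd A (Int.gcd B C : ℤ) = 1 := by
    have hdv : (Int.gcd A (Int.gcd B C : ℤ)) * (Int.gcd A (Int.gcd B C : ℤ)) ∣ D := by
      obtain ⟨t, ht⟩ : ∃ t, t = Int.gcd A (Int.gcd B C : ℤ) := ⟨_, rfl⟩
      rw [← ht]
      have t1 : (t : ℤ) ∣ A := by rw [ht]; exact Int.gcd_dvd_left ..
      have t2 : (t : ℤ) ∣ (Int.gcd B C : ℤ) := by rw [ht]; exact Int.gcd_dvd_right ..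
      have t3 : (t : ℤ) ∣ B := t2.trans (Int.gcd_dvd_left ..)
      have t4 : (t : ℤ) ∣ C := t2.trans (Int.gcd_dvd_right ..)
      have : ((t * t : ℕ) : ℤ) ∣ (D : ℤ) := by
        rw [← hdsc]
        push_cast
        obtain ⟨x, hx⟩ := t1
        obtain ⟨y, hy⟩ := t3
        obtain ⟨z, hz⟩ := t4
        refine ⟨4 * x * z - y ^ 2, ?_⟩
        generalize (t : ℤ) = s at *
        rw [hx, hy, hz]
        ring
      exact_mod_cast this
    exact Nat.isUnit_iff.1 (hsq _ hdv)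
  obtain ⟨x, y, z, hxyz⟩ : ∃ x y z : ℤ, A * x + B * y + C * z = 1 := by
    have u1 := Int.gcd_eq_gcd_ab A (Int.gcd B C : ℤ)
    have u2 := Int.gcd_eq_gcd_ab B C
    rw [hg1] at u1
    refine ⟨A.gcdA (Int.gcd B C : ℤ), B.gcdA C * A.gcdB (Int.gcd B C : ℤ),
      B.gcdB C * A.gcdB (Int.gcd B C : ℤ), ?_⟩
    have u3 : (Int.gcd B C : ℤ) * A.gcdB (Int.gcd B C : ℤ) =
        (B * B.gcdA C + C * B.gcdB C) * A.gcdB (Int.gcd B C : ℤ) :=
      congrArg (fun t => t * A.gcdB (Int.gcd B C : ℤ)) u2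
    push_cast at u1
    linear_combination -u1 - u3
  obtain ⟨u, hu⟩ : ∃ u, c = A * u := by
    refine ⟨c * x + (d - a) * y - b * z, ?_⟩
    linear_combination (-c) * hxyz - y * e1 + z * e2
  have f1 : d - a = B * u := by
    refine mul_left_cancel₀ hA.ne' ?_
    rw [e1, hu]; ring
  have f2 : b = -(C * u) := by
    refine mul_left_cancel₀ hA.ne' ?_
    rw [e2, hu]; ring
  have hsqr : (a + d) ^ 2 = 4 - D * u ^ 2 := by
    rw [← hdsc]
    have h4 : (d - a) ^ 2 = (B * u) ^ 2 := by rw [f1]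
    have h5 : b * c = -(C * u) * (A * u) := by rw [← f2, ← hu]
    linear_combination h4 + 4 * hdet + 4 * h5
  have hu0 : u = 0 := by
    by_contra hne
    have : 1 ≤ u ^ 2 := by
      have := sq_nonneg u
      rcases lt_or_gt_of_ne hne with h | h <;> nlinarith
    have hD' : (4 : ℤ) < D := by exact_mod_cast hD
    nlinarith [sq_nonneg (a + d)]
  subst hu0
  have hc0 : c = 0 := by rw [hu]; ring
  have hb0 : b = 0 := by rw [f2]; ring
  have had : d = a := by linarith [f1]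
  have haa : a * a = 1 := by
    rw [hc0, hb0, had] at hdet
    linarith
  rcases mul_self_eq_one_iff.1 haa with h | h
  · left
    ext i j
    fin_cases i <;> fin_cases j <;> simp [← ha, ← hb, ← hc, ← hd, hb0, hc0, had, h]
  · right
    ext i j
    fin_cases i <;> fin_cases j <;> simp [← ha, ← hb, ← hc, ← hd, hb0, hc0, had, h]

end Pool.Agent.H45.CN
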