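import Pool.Agent.H31.CN.T3

/-!
# The sum over the diagonal
-/

set_option autoImplicit false

open scoped Real ArithmeticFunction.zeta ArithmeticFunction.Moebius

namespace Pool.Agent.H45.CN

open Pool.Agent.H31.CN

/-! ### Summability of multiplicative functions -/

theorem tsum_three (g : ℕ → ℝ) (h1 : g 1 = 1) {p : ℕ} (h3 : ∀ k, 3 ≤ k → g (p ^ k) = 0) :
    Summable (fun n : ℕ => g (p ^ n)) ∧ ∑' n : ℕ, g (p ^ n) = 1 + g p + g (p ^ 2) := by
  have h : ∀ n ∉ Finset.range 3, g (p ^ n) = 0 := by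
    intro n hn
    exact h3 n (by simpa using hn)
  refine ⟨summable_of_ne_finset_zero h, ?_⟩
  rw [tsum_eq_sum h]
  simp [Finset.sum_range_succ, h1]

theorem summable_mult (g : ℕ → ℝ) (h0 : g 0 = 0) (h1 : g 1 = 1) (hnn : ∀ n, 0 ≤ g n)
    (hm : ∀ m n, Nat.Coprime m n → g (m * n) = g m * g n)
    (h3 : ∀ p : ℕ, p.Prime → ∀ k, 3 ≤ k → g (p ^ k) = 0) (c : ℕ → ℝ) (hc : Summable c)
    (hc0 : ∀ n, 0 ≤ c n) (hb : ∀ p : ℕ, p.Prime → g p + g (p ^ 2) ≤ c p) : Summable g := by
  refine summable_of_sum_le hnn (c := Real.exp (∑' n, c n)) ?_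
  intro u
  obtain ⟨s, hs⟩ : ∃ s, s = Finset.range (u.sup id + 1) := ⟨_, rfl⟩
  have key := EulerProduct.summable_and_hasSum_factoredNumbers_prod_filter_prime_tsum
    (f := g) h1 (fun {m n} h => hm m n h) (fun {p} hp => by
      have := (tsum_three g h1 (h3 p hp)).1
      simpa [Real.norm_eq_abs] using this.abs) s
  have hmem : ∀ m ∈ u, m ≠ 0 → m ∈ Nat.factoredNumbers s := by
    intro m hm hm0
    rw [Nat.mem_factoredNumbers]
    refine ⟨hm0, fun p hp => ?_⟩
    rw [hs, Finset.mem_range]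
    have h1 : p ≤ m := Nat.le_of_mem_primeFactorsList hp
    have h2 : m ≤ u.sup id := Finset.le_sup (f := id) hm
    omega
  have hle1 : ∑ m ∈ u, g m ≤ ∑' m : Nat.factoredNumbers s, g m := by
    have e1 : ∑ m ∈ u, g m = ∑ m ∈ u.filter (fun m => m ∈ Nat.factoredNumbers s), g m := by
      symm
      refine Finset.sum_subset (Finset.filter_subset _ _) ?_
      intro m hmu hm
      have : m = 0 := by
        by_contra hne
        exact hm (Finset.mem_filter.2 ⟨hmu, hmem m hmu hne⟩)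
      rw [this, h0]
    rw [e1]
    have e2 : ∑ m ∈ u.filter (fun m => m ∈ Nat.factoredNumbers s), g m =
        ∑ m ∈ u.subtype (fun m => m ∈ Nat.factoredNumbers s), g m := by
      rw [Finset.sum_subtype_eq_sum_filter]
    rw [e2]
    exact Summable.sum_le_tsum _ (fun m _ => hnn _) key.2.summable
  refine hle1.trans ?_
  rw [key.2.tsum_eq]
  have hle2 : ∏ p ∈ s with p.Prime, ∑' n : ℕ, g (p ^ n) ≤ ∏ p ∈ s with p.Prime, Real.exp (c p) := by
    refine Finset.prod_le_prod (fun p _ => tsum_nonneg fun n => hnn _) fun p hp => ?_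
    have hp' : p.Prime := (Finset.mem_filter.1 hp).2
    rw [(tsum_three g h1 (h3 p hp')).2]
    have := hb p hp'
    have h5 := Real.add_one_le_exp (c p)
    linarith
  refine hle2.trans ?_
  rw [← Real.exp_sum]
  exact Real.exp_le_exp.2 (hc.sum_le_tsum _ fun n _ => hc0 n)

/-! ### The smoothed harmonic sums -/

theorem harm (k : ℕ) (y : ℝ) (hy : 1 ≤ y) :
    |∑ a ∈ Finset.Icc 1 ⌊y⌋₊, 1 / (a : ℝ) * Real.log (y / a) ^ k -
      Real.log y ^ (k + 1) / (k + 1)| ≤ Real.log y ^ k + 1 := by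
  obtain ⟨n, hn⟩ : ∃ n, n = ⌊y⌋₊ := ⟨_, rfl⟩
  have hn1 : 1 ≤ n := by rw [hn]; exact Nat.le_floor (by simpa using hy)
  have hny : (n : ℝ) ≤ y := by rw [hn]; exact Nat.floor_le (by linarith)
  have hyn : y < n + 1 := by rw [hn]; exact Nat.lt_floor_add_one y
  have hn1' : (1 : ℝ) ≤ n := by exact_mod_cast hn1
  have hy0 : 0 < y := by linarith
  have hL0 : 0 ≤ Real.log y := Real.log_nonneg hy
  obtain ⟨g, hg⟩ : ∃ g : ℝ → ℝ, g = fun t => 1 / t * Real.log (y / t) ^ k := ⟨_, rfl⟩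
  have hlog : ∀ t : ℝ, 1 ≤ t → t ≤ n → 0 ≤ Real.log (y / t) := by
    intro t h1 h2
    apply Real.log_nonneg
    rw [le_div_iff₀ (by linarith)]
    linarith
  have hanti : AntitoneOn g (Set.Icc ((1 : ℕ) : ℝ) n) := by
    intro s hs t ht hst
    rw [hg]
    have hs1 : (1 : ℝ) ≤ s := by simpa using hs.1
    have ht1 : (1 : ℝ) ≤ t := by linarith
    have h1 : 1 / t ≤ 1 / s := one_div_le_one_div_of_le (by linarith) hst
    have h2 : Real.log (y / t) ≤ Real.log (y / s) := by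
      apply Real.log_le_log (by positivity)
      exact div_le_div_of_nonneg_left hy0.le (by linarith) hst
    have h3 : Real.log (y / t) ^ k ≤ Real.log (y / s) ^ k :=
      pow_le_pow_left₀ (hlog t ht1 ht.2) h2 k
    exact mul_le_mul h1 h3 (pow_nonneg (hlog t ht1 ht.2) k) (by positivity)
  have hint : ∫ t in ((1 : ℕ) : ℝ)..n, g t =
      (Real.log y ^ (k + 1) - Real.log (y / n) ^ (k + 1)) / (k + 1) := by
    have hder : ∀ t ∈ Set.uIcc ((1 : ℕ) : ℝ) n,
        HasDerivAt (fun t => -(Real.log (y / t) ^ (k + 1) / (k + 1))) (g t) t := by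
      intro t ht
      rw [Set.uIcc_of_le (by simpa using hn1')] at ht
      have ht1 : (1 : ℝ) ≤ t := by simpa using ht.1
      have ht0 : t ≠ 0 := by linarith
      have h1 : HasDerivAt (fun t : ℝ => y / t) (-y / t ^ 2) t := by
        have h2 := (hasDerivAt_inv ht0).const_mul y
        have e1 : (fun t : ℝ => y / t) = fun t : ℝ => y * t⁻¹ := by
          funext t; rw [div_eq_mul_inv]
        have e2 : -y / t ^ 2 = y * -(t ^ 2)⁻¹ := by
          rw [div_eq_mul_inv]; ring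
        rw [e1, e2]
        exact h2
      have h3 : HasDerivAt (fun t : ℝ => Real.log (y / t)) (-y / t ^ 2 / (y / t)) t :=
        h1.log (by positivity)
      have h4 := ((h3.pow (k + 1)).div_const ((k : ℝ) + 1)).neg
      have e3 : g t = -(((k + 1 : ℕ) : ℝ) * Real.log (y / t) ^ (k + 1 - 1) *
          (-y / t ^ 2 / (y / t)) / ((k : ℝ) + 1)) := by
        rw [hg]
        have hk : ((k : ℝ) + 1) ≠ 0 := by positivity
        simp only [Nat.add_sub_cancel]
        push_cast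
        field_simp
      rw [e3]
      exact h4
    have hcont : IntervalIntegrable g MeasureTheory.volume ((1 : ℕ) : ℝ) n := by
      refine ContinuousOn.intervalIntegrable ?_
      rw [Set.uIcc_of_le (by simpa using hn1'), hg]
      refine ContinuousOn.mul ?_ (ContinuousOn.pow ?_ k)
      · refine ContinuousOn.div continuousOn_const continuousOn_id ?_
        intro t ht
        have ht1 : (1 : ℝ) ≤ t := by simpa using ht.1
        exact (by linarith : t ≠ 0)
      · refine ContinuousOn.log ?_ ?_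
        · refine ContinuousOn.div continuousOn_const continuousOn_id ?_
          intro t ht
          have ht1 : (1 : ℝ) ≤ t := by simpa using ht.1
          exact (by linarith : t ≠ 0)
        · intro t ht
          have ht1 : (1 : ℝ) ≤ t := by simpa using ht.1
          positivity
    rw [intervalIntegral.integral_eq_sub_of_hasDerivAt hder hcont]
    simp only [Nat.cast_one, div_one]
    ring
  have hup := AntitoneOn.sum_le_integral_Ico (f := g) hn1 hanti
  have hlo := AntitoneOn.integral_le_sum_Ico (f := g) hn1 hanti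
  have hIcc : ∑ a ∈ Finset.Icc 1 n, 1 / (a : ℝ) * Real.log (y / a) ^ k =
      ∑ a ∈ Finset.Ico 1 n, g a + g n := by
    have : Finset.Icc 1 n = Finset.Ico 1 (n + 1) := by
      ext x; simp
    rw [this, Finset.sum_Ico_succ_top hn1, hg]
  have hIcc' : ∑ a ∈ Finset.Icc 1 n, 1 / (a : ℝ) * Real.log (y / a) ^ k =
      g 1 + ∑ a ∈ Finset.Ico 1 n, g ((a + 1 : ℕ) : ℝ) := by
    have : Finset.Icc 1 n = Finset.Ico 1 (n + 1) := by
      ext x; simp
    rw [this, Finset.sum_eq_sum_Ico_succ_bot (by omega),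
      Finset.sum_Ico_add' (fun a : ℕ => g (a : ℝ)) 1 n 1, hg]
    simp
  have hg1 : g 1 = Real.log y ^ k := by rw [hg]; simp
  have hgn : 0 ≤ g n := by
    rw [hg]
    have := hlog n hn1' le_rfl
    positivity
  have hly0 : 0 ≤ Real.log (y / n) := hlog n hn1' le_rfl
  have hly1 : Real.log (y / n) ≤ 1 := by
    have h1 : y / n ≤ 2 := by
      rw [div_le_iff₀ (by linarith)]
      linarith
    have h2 : Real.log (y / n) ≤ Real.log 2 := Real.log_le_log (by positivity) h1
    have := Real.log_two_lt_d9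
    linarith
  have hb : Real.log (y / n) ^ (k + 1) / (k + 1) ≤ 1 := by
    rw [div_le_one (by positivity)]
    have := pow_le_one₀ (n := k + 1) hly0 hly1
    have hk : (0 : ℝ) ≤ k := Nat.cast_nonneg k
    linarith
  have hb0 : 0 ≤ Real.log (y / n) ^ (k + 1) / (k + 1) := by positivity
  rw [← hn]
  rw [hint, sub_div] at hup hlo
  have hLk : 0 ≤ Real.log y ^ k := pow_nonneg hL0 k
  rw [abs_le]
  constructor
  · rw [hIcc]; linarith
  · rw [hIcc', hg1]; linarith

/-! ### The convolution -/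

theorem swap (n : ℕ) (F : ℕ → ℕ → ℝ) :
    ∑ d ∈ Finset.Icc 1 n, ∑ x ∈ d.divisorsAntidiagonal, F x.1 x.2 =
      ∑ b ∈ Finset.Icc 1 n, ∑ a ∈ Finset.Icc 1 (n / b), F b a := by
  rw [Finset.sum_sigma', Finset.sum_sigma']
  refine Finset.sum_bij' (fun s _ => ⟨s.2.1, s.2.2⟩) (fun t _ => ⟨t.1 * t.2, (t.1, t.2)⟩)
    ?_ ?_ ?_ ?_ ?_
  · rintro ⟨d, b, a⟩ h
    simp only [Finset.mem_sigma, Finset.mem_Icc, Nat.mem_divisorsAntidiagonal] at h ⊢
    obtain ⟨⟨h1, h2⟩, h3, h4⟩ := h
    have hb : 0 < b := Nat.pos_of_ne_zero (by rintro rfl; simp at h3; omega)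
    have ha : 0 < a := Nat.pos_of_ne_zero (by rintro rfl; simp at h3; omega)
    refine ⟨⟨hb, ?_⟩, ha, ?_⟩
    · exact (Nat.le_mul_of_pos_right b ha).trans (h3.le.trans h2)
    · rw [Nat.le_div_iff_mul_le hb, mul_comm]
      exact h3.le.trans h2
  · rintro ⟨b, a⟩ h
    simp only [Finset.mem_sigma, Finset.mem_Icc, Nat.mem_divisorsAntidiagonal] at h ⊢
    obtain ⟨⟨h1, h2⟩, h3, h4⟩ := h
    rw [Nat.le_div_iff_mul_le h1, mul_comm] at h4
    have h5 : 0 < b * a := Nat.mul_pos h1 h3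
    refine ⟨⟨h5, h4⟩, trivial, h5.ne'⟩
  · rintro ⟨d, b, a⟩ h
    simp only [Finset.mem_sigma, Finset.mem_Icc, Nat.mem_divisorsAntidiagonal] at h
    obtain ⟨-, h3, -⟩ := h
    subst h3
    rfl
  · rintro ⟨b, a⟩ h
    rfl
  · rintro ⟨d, b, a⟩ h
    rfl

/-- the local factor -/
noncomputable def ph (N : ℕ) (p : ℕ) : ℝ :=
  if p ∣ N then 0 else (1 - 1 / (p : ℝ) ^ 2) / (1 - 2 / (p : ℝ)) ^ 2

/-- the multiplicative function -/
noncomputable def fA (N : ℕ) : ArithmeticFunction ℝ :=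
  ((μ : ArithmeticFunction ℝ).pmul (μ : ArithmeticFunction ℝ)).pmul
    (ArithmeticFunction.prodPrimeFactors (ph N))

/-- its convolution with the Möbius function -/
noncomputable def hA (N : ℕ) : ArithmeticFunction ℝ := (μ : ArithmeticFunction ℝ) * fA N

theorem fA_mult (N : ℕ) : (fA N).IsMultiplicative :=
  (ArithmeticFunction.isMultiplicative_moebius.intCast.pmul
    ArithmeticFunction.isMultiplicative_moebius.intCast).pmul
      (ArithmeticFunction.IsMultiplicative.prodPrimeFactors _)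

theorem hA_mult (N : ℕ) : (hA N).IsMultiplicative :=
  ArithmeticFunction.isMultiplicative_moebius.intCast.mul (fA_mult N)

theorem fA_sqf (N : ℕ) {n : ℕ} (h : Squarefree n) : fA N n = ∏ p ∈ n.primeFactors, ph N p := by
  have h0 : n ≠ 0 := h.ne_zero
  rw [fA, ArithmeticFunction.pmul_apply, ArithmeticFunction.pmul_apply,
    ArithmeticFunction.prodPrimeFactors_apply h0]
  have h1 : ((μ : ArithmeticFunction ℝ) n) * ((μ : ArithmeticFunction ℝ) n) = 1 := by
    rw [ArithmeticFunction.intCoe_apply, ← Int.cast_mul, ← pow_two,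
      ArithmeticFunction.moebius_sq_eq_one_of_squarefree h, Int.cast_one]
  rw [h1, one_mul]

theorem fA_nsqf (N : ℕ) {n : ℕ} (h : ¬ Squarefree n) : fA N n = 0 := by
  rw [fA, ArithmeticFunction.pmul_apply, ArithmeticFunction.pmul_apply,
    ArithmeticFunction.intCoe_apply, ArithmeticFunction.moebius_eq_zero_of_not_squarefree h]
  simp

theorem fA_prime (N : ℕ) {p : ℕ} (hp : p.Prime) : fA N p = ph N p := by
  rw [fA_sqf N hp.squarefree, hp.primeFactors, Finset.prod_singleton]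

theorem fA_pow (N : ℕ) {p : ℕ} (hp : p.Prime) {k : ℕ} (hk : 2 ≤ k) : fA N (p ^ k) = 0 := by
  refine fA_nsqf N ?_
  rw [Nat.squarefree_pow_iff hp.one_lt.ne' (by omega)]
  rintro ⟨-, h⟩
  omega

theorem zeta_hA (N : ℕ) : (ζ : ArithmeticFunction ℝ) * hA N = fA N := by
  rw [hA, ← mul_assoc, ArithmeticFunction.coe_zeta_mul_coe_moebius, one_mul]

theorem sum_hA (N n : ℕ) : ∑ b ∈ n.divisors, hA N b = fA N n := by
  rw [← zeta_hA, ArithmeticFunction.coe_zeta_mul_apply]

theorem sum_hA_pow (N : ℕ) {p : ℕ} (hp : p.Prime) (k : ℕ) :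
    ∑ j ∈ Finset.range (k + 1), hA N (p ^ j) = fA N (p ^ k) := by
  rw [← sum_hA, Nat.sum_divisors_prime_pow hp]

theorem hA_succ (N : ℕ) {p : ℕ} (hp : p.Prime) (k : ℕ) :
    hA N (p ^ (k + 1)) = fA N (p ^ (k + 1)) - fA N (p ^ k) := by
  have h1 := sum_hA_pow N hp (k + 1)
  have h2 := sum_hA_pow N hp k
  rw [Finset.sum_range_succ, h2] at h1
  linarith

theorem hA_prime (N : ℕ) {p : ℕ} (hp : p.Prime) : hA N p = ph N p - 1 := by
  have h := hA_succ N hp 0
  rw [zero_add, pow_one, pow_zero, (fA_mult N).map_one, fA_prime N hp] at h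
  exact h

theorem hA_two (N : ℕ) {p : ℕ} (hp : p.Prime) : hA N (p ^ 2) = -ph N p := by
  have h := hA_succ N hp 1
  rw [pow_one, fA_prime N hp, fA_pow N hp le_rfl] at h
  rw [h]; ring

theorem hA_high (N : ℕ) {p : ℕ} (hp : p.Prime) {k : ℕ} (hk : 3 ≤ k) : hA N (p ^ k) = 0 := by
  obtain ⟨j, rfl⟩ : ∃ j, k = j + 1 := ⟨k - 1, by omega⟩
  rw [hA_succ N hp, fA_pow N hp (by omega), fA_pow N hp (by omega), sub_zero]

theorem ph_bound {N : ℕ} (hN : 1 ≤ N) (h2 : 2 ∣ N) {p : ℕ} (hp : p.Prime) :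
    |ph N p - 1| ≤ (36 + N) / p ∧ |ph N p| ≤ 9 := by
  have hp0 : (0 : ℝ) < p := by exact_mod_cast hp.pos
  have hN0 : (0 : ℝ) ≤ N := Nat.cast_nonneg N
  unfold ph
  split_ifs with h
  · have hpN : (p : ℝ) ≤ N := by exact_mod_cast Nat.le_of_dvd (by omega) h
    refine ⟨?_, by norm_num⟩
    rw [zero_sub, abs_neg, abs_one, le_div_iff₀ hp0]
    linarith
  · have hp3 : 3 ≤ p := by
      rcases hp.two_le.lt_or_eq with h3 | h3
      · exact h3
      · exact absurd (h3 ▸ h2) h
    have hp3' : (3 : ℝ) ≤ p := by exact_mod_cast hp3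
    have hq : (1 : ℝ) / 3 ≤ 1 - 2 / p := by
      have : 2 / (p : ℝ) ≤ 2 / 3 := div_le_div_of_nonneg_left (by norm_num) (by norm_num) hp3'
      linarith
    have hq2 : (1 : ℝ) / 9 ≤ (1 - 2 / (p : ℝ)) ^ 2 := by nlinarith
    have hq0 : (0 : ℝ) < (1 - 2 / (p : ℝ)) ^ 2 := by linarith
    have hi : 0 < 1 / (p : ℝ) := by positivity
    have hi3 : 1 / (p : ℝ) ≤ 1 / 3 := one_div_le_one_div_of_le (by norm_num) hp3'
    have hn : 0 ≤ 1 - 1 / (p : ℝ) ^ 2 := by
      have : 1 / (p : ℝ) ^ 2 = (1 / (p : ℝ)) ^ 2 := by ring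
      rw [this]; nlinarith
    constructor
    · have e : (1 - 1 / (p : ℝ) ^ 2) / (1 - 2 / (p : ℝ)) ^ 2 - 1 =
          (4 * (1 / (p : ℝ)) - 5 * (1 / (p : ℝ)) ^ 2) / (1 - 2 / (p : ℝ)) ^ 2 := by
        rw [div_sub_one hq0.ne']
        congr 1
        ring
      have h1 : 0 ≤ 4 * (1 / (p : ℝ)) - 5 * (1 / (p : ℝ)) ^ 2 := by nlinarith
      rw [e, abs_of_nonneg (div_nonneg h1 hq0.le), div_le_iff₀ hq0]
      have h4 : (36 + N) / (p : ℝ) = (36 + N) * (1 / p) := by ring
      rw [h4]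
      have h5 : (36 + (N : ℝ)) * (1 / p) * (1 / 9) ≤
          (36 + N) * (1 / p) * (1 - 2 / (p : ℝ)) ^ 2 :=
        mul_le_mul_of_nonneg_left hq2 (by positivity)
      nlinarith
    · rw [abs_of_nonneg (div_nonneg hn hq0.le), div_le_iff₀ hq0]
      have : 0 ≤ 1 / (p : ℝ) ^ 2 := by positivity
      linarith

theorem summable_hA {N : ℕ} (hN : 1 ≤ N) (h2 : 2 ∣ N) :
    Summable (fun n : ℕ => |hA N n| * (n : ℝ) ^ (-(3 / 4) : ℝ)) := by
  refine summable_mult _ (by simp) (by simp [(hA_mult N).map_one]) (fun n => by positivity) ?_ ?_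
    (fun n => (45 + N) * (n : ℝ) ^ (-(3 / 2) : ℝ)) ?_ (fun n => by positivity) ?_
  · intro m n h
    rw [(hA_mult N).map_mul_of_coprime h, abs_mul, Nat.cast_mul,
      Real.mul_rpow (Nat.cast_nonneg _) (Nat.cast_nonneg _)]
    ring
  · intro p hp k hk
    simp [hA_high N hp hk]
  · exact (Real.summable_nat_rpow.2 (by norm_num)).mul_left _
  · intro p hp
    have hp0 : (0 : ℝ) < p := by exact_mod_cast hp.pos
    have hp1 : (1 : ℝ) ≤ p := by exact_mod_cast hp.one_le
    obtain ⟨h3, h4⟩ := ph_bound hN h2 hp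
    rw [hA_prime N hp, hA_two N hp, abs_neg]
    have e1 : (p : ℝ)⁻¹ * (p : ℝ) ^ (-(3 / 4) : ℝ) ≤ (p : ℝ) ^ (-(3 / 2) : ℝ) := by
      rw [← Real.rpow_neg_one, ← Real.rpow_add hp0]
      exact Real.rpow_le_rpow_of_exponent_le hp1 (by norm_num)
    have e2 : (((p ^ 2 : ℕ) : ℝ)) ^ (-(3 / 4) : ℝ) = (p : ℝ) ^ (-(3 / 2) : ℝ) := by
      rw [Nat.cast_pow, ← Real.rpow_natCast, ← Real.rpow_mul hp0.le]
      norm_num
    have e3 : |ph N p - 1| * (p : ℝ) ^ (-(3 / 4) : ℝ) ≤ (36 + N) * (p : ℝ) ^ (-(3 / 2) : ℝ) := by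
      refine (mul_le_mul_of_nonneg_right h3 (by positivity)).trans ?_
      rw [div_eq_mul_inv, mul_assoc]
      exact mul_le_mul_of_nonneg_left e1 (by positivity)
    have e4 : |ph N p| * (((p ^ 2 : ℕ) : ℝ)) ^ (-(3 / 4) : ℝ) ≤ 9 * (p : ℝ) ^ (-(3 / 2) : ℝ) := by
      rw [e2]
      exact mul_le_mul_of_nonneg_right h4 (by positivity)
    linarith

theorem summable_hA' {N : ℕ} (hN : 1 ≤ N) (h2 : 2 ∣ N) :
    Summable (fun n : ℕ => |hA N n| / n * (1 + Real.log n)) := by
  refine Summable.of_nonneg_of_le ?_ ?_ ((summable_hA hN h2).mul_left 5)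
  · intro n
    rcases Nat.eq_zero_or_pos n with rfl | hn
    · simp
    have : 0 ≤ Real.log n := Real.log_nonneg (by exact_mod_cast hn)
    positivity
  · intro n
    rcases Nat.eq_zero_or_pos n with rfl | hn
    · simp
    have hn1 : (1 : ℝ) ≤ n := by exact_mod_cast hn
    have hn0 : (0 : ℝ) < n := by linarith
    have h3 : Real.log n ≤ (n : ℝ) ^ (1 / 4 : ℝ) / (1 / 4) :=
      Real.log_le_rpow_div hn0.le (by norm_num)
    have h4 : 1 ≤ (n : ℝ) ^ (1 / 4 : ℝ) := Real.one_le_rpow hn1 (by norm_num)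
    have h5 : (n : ℝ)⁻¹ * (n : ℝ) ^ (1 / 4 : ℝ) = (n : ℝ) ^ (-(3 / 4) : ℝ) := by
      rw [← Real.rpow_neg_one, ← Real.rpow_add hn0]
      norm_num
    have h6 : 1 + Real.log n ≤ 5 * (n : ℝ) ^ (1 / 4 : ℝ) := by linarith
    calc |hA N n| / n * (1 + Real.log n) ≤ |hA N n| / n * (5 * (n : ℝ) ^ (1 / 4 : ℝ)) :=
          mul_le_mul_of_nonneg_left h6 (by positivity)
      _ = 5 * (|hA N n| * ((n : ℝ)⁻¹ * (n : ℝ) ^ (1 / 4 : ℝ))) := by
          rw [div_eq_mul_inv]; ring
      _ = _ := by rw [h5]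

/-- the Euler product -/
theorem euler {N : ℕ} (hN : 1 ≤ N) (h2 : 2 ∣ N) :
    ∑' n : ℕ, hA N n / n = ∏' p : Nat.Primes, if (p : ℕ) ∣ N then 1 - 1 / ((p : ℕ) : ℝ) else
    (1 - 1 / ((p : ℕ) : ℝ)) * (1 + 1 / ((p : ℕ) : ℝ) * (1 - 1 / ((p : ℕ) : ℝ) ^ 2) /
      (1 - 2 / ((p : ℕ) : ℝ)) ^ 2) := by
  obtain ⟨g, hg⟩ : ∃ g : ℕ → ℝ, g = fun n => hA N n / n := ⟨_, rfl⟩
  have hsum : Summable fun n => ‖g n‖ := by
    refine Summable.of_nonneg_of_le (fun n => norm_nonneg _) ?_ (summable_hA' hN h2)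
    intro n
    rw [hg]
    simp only [norm_div, Real.norm_eq_abs, Nat.abs_cast]
    rcases Nat.eq_zero_or_pos n with rfl | hn
    · simp
    have h3 : 0 ≤ Real.log n := Real.log_nonneg (by exact_mod_cast hn)
    have h4 : 0 ≤ |hA N n| / n := by positivity
    nlinarith
  have hg1 : g 1 = 1 := by rw [hg]; simp [(hA_mult N).map_one]
  have hmul : ∀ {m n : ℕ}, Nat.Coprime m n → g (m * n) = g m * g n := by
    intro m n h
    rw [hg]
    simp only [(hA_mult N).map_mul_of_coprime h, Nat.cast_mul]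
    rw [mul_div_mul_comm]
  have hg0 : g 0 = 0 := by rw [hg]; simp
  have key := EulerProduct.eulerProduct_tprod hg1 hmul hsum hg0
  have e1 : ∑' n : ℕ, hA N n / n = ∑' n, g n := by rw [hg]
  rw [e1, ← key]
  refine tprod_congr fun p => ?_
  have hp := p.2
  have hp0 : ((p : ℕ) : ℝ) ≠ 0 := by exact_mod_cast hp.ne_zero
  have h3 : ∀ k, 3 ≤ k → g ((p : ℕ) ^ k) = 0 := by
    intro k hk
    rw [hg]
    simp [hA_high N hp hk]
  rw [(tsum_three g hg1 h3).2, hg]
  simp only [hA_prime N hp, hA_two N hp]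
  unfold ph
  split_ifs with h
  · push_cast
    ring
  · have hp3 : 3 ≤ (p : ℕ) := by
      rcases hp.two_le.lt_or_eq with h3 | h3
      · exact h3
      · exact absurd (h3 ▸ h2) h
    have hp3' : (3 : ℝ) ≤ ((p : ℕ) : ℝ) := by exact_mod_cast hp3
    have hq : (1 - 2 / ((p : ℕ) : ℝ)) ≠ 0 := by
      have : 2 / ((p : ℕ) : ℝ) ≤ 2 / 3 :=
        div_le_div_of_nonneg_left (by norm_num) (by norm_num) hp3'
      intro h0
      linarith
    push_cast
    have hq' : ((p : ℕ) : ℝ) - 2 ≠ 0 := by linarith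
    field_simp
    ring

/-- one exponent -/
theorem main_k {N : ℕ} (hN : 1 ≤ N) (h2 : 2 ∣ N) (k : ℕ) : ∃ C : ℝ, 0 ≤ C ∧ ∀ M : ℝ, 2 ≤ M →
    |∑ d ∈ Finset.Icc 1 ⌊M⌋₊, fA N d / d * (Real.log (M / d) / Real.log M) ^ k -
      (∑' n : ℕ, hA N n / n) * Real.log M * (1 / (k + 1))| ≤ C := by
  obtain ⟨H, hH⟩ : ∃ H, H = ∑' n : ℕ, |hA N n| / n * (1 + Real.log n) := ⟨_, rfl⟩
  have hs := summable_hA' hN h2
  have hs1 : Summable fun n : ℕ => |hA N n| / n := by
    refine Summable.of_nonneg_of_le (fun n => by positivity) ?_ hs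
    intro n
    rcases Nat.eq_zero_or_pos n with rfl | hn
    · simp
    have h3 : 0 ≤ Real.log n := Real.log_nonneg (by exact_mod_cast hn)
    have h4 : 0 ≤ |hA N n| / n := by positivity
    nlinarith
  have hs2 : Summable fun n : ℕ => hA N n / n := by
    refine Summable.of_norm ?_
    simpa [Real.norm_eq_abs, abs_div] using hs1
  have hH0 : 0 ≤ H := by
    rw [hH]
    refine tsum_nonneg fun n => ?_
    rcases Nat.eq_zero_or_pos n with rfl | hn
    · simp
    have h3 : 0 ≤ Real.log n := Real.log_nonneg (by exact_mod_cast hn)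
    positivity
  refine ⟨H * (1 + (1 / Real.log 2) ^ k) + H, by
    have := Real.log_pos (by norm_num : (1 : ℝ) < 2); positivity, ?_⟩
  intro M hM
  obtain ⟨n, hn⟩ : ∃ n, n = ⌊M⌋₊ := ⟨_, rfl⟩
  obtain ⟨L, hL⟩ : ∃ L, L = Real.log M := ⟨_, rfl⟩
  have hl2 : 0 < Real.log 2 := Real.log_pos (by norm_num)
  have hL2 : Real.log 2 ≤ L := by rw [hL]; exact Real.log_le_log (by norm_num) hM
  have hL0 : 0 < L := by linarith
  have hM0 : 0 < M := by linarith
  -- the sum over `b`
  have e1 : ∑ d ∈ Finset.Icc 1 n, fA N d / d * (Real.log (M / d) / L) ^ k =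
      ∑ b ∈ Finset.Icc 1 n, hA N b / b *
        ((∑ a ∈ Finset.Icc 1 (n / b), 1 / (a : ℝ) * Real.log (M / b / a) ^ k) / L ^ k) := by
    have h1 : ∀ d ∈ Finset.Icc 1 n, fA N d / d * (Real.log (M / d) / L) ^ k =
        ∑ x ∈ d.divisorsAntidiagonal, hA N x.1 / x.1 *
          (1 / (x.2 : ℝ) * Real.log (M / x.1 / x.2) ^ k) / L ^ k := by
      intro d hd
      rw [← sum_hA, ← Nat.sum_divisorsAntidiagonal (fun b _ => hA N b), Finset.sum_div,
        Finset.sum_mul]
      refine Finset.sum_congr rfl fun x hx => ?_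
      obtain ⟨h1, h2⟩ := Nat.mem_divisorsAntidiagonal.1 hx
      have h3 : ((d : ℕ) : ℝ) = x.1 * x.2 := by rw [← h1]; push_cast; ring
      rw [h3, div_pow, div_div, div_mul_eq_div_div]
      ring
    rw [Finset.sum_congr rfl h1, swap n (fun b a => hA N b / b *
          (1 / (a : ℝ) * Real.log (M / b / a) ^ k) / L ^ k)]
    refine Finset.sum_congr rfl fun b _ => ?_
    rw [Finset.sum_div, Finset.mul_sum]
    refine Finset.sum_congr rfl fun a _ => ?_
    ring
  have hbM : ∀ b ∈ Finset.Icc 1 n, (1 : ℝ) ≤ b ∧ (b : ℝ) ≤ M ∧ n / b = ⌊M / b⌋₊ := by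
    intro b hb
    obtain ⟨h1, h3⟩ := Finset.mem_Icc.1 hb
    refine ⟨by exact_mod_cast h1, ?_, ?_⟩
    · exact (Nat.le_floor_iff hM0.le).1 (hn ▸ h3)
    · rw [hn, Nat.floor_div_natCast]
  -- first estimate
  have e2 : |∑ b ∈ Finset.Icc 1 n, hA N b / b *
        ((∑ a ∈ Finset.Icc 1 (n / b), 1 / (a : ℝ) * Real.log (M / b / a) ^ k) / L ^ k) -
      ∑ b ∈ Finset.Icc 1 n, hA N b / b * (Real.log (M / b) ^ (k + 1) / (k + 1) / L ^ k)| ≤
      H * (1 + (1 / Real.log 2) ^ k) := by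
    rw [← Finset.sum_sub_distrib]
    refine (Finset.abs_sum_le_sum_abs _ _).trans ?_
    have h1 : ∀ b ∈ Finset.Icc 1 n, |hA N b / b *
        ((∑ a ∈ Finset.Icc 1 (n / b), 1 / (a : ℝ) * Real.log (M / b / a) ^ k) / L ^ k) -
        hA N b / b * (Real.log (M / b) ^ (k + 1) / (k + 1) / L ^ k)| ≤
        |hA N b| / b * (1 + Real.log b) * (1 + (1 / Real.log 2) ^ k) := by
      intro b hb
      obtain ⟨hb1, hb2, hb3⟩ := hbM b hb
      have hb0 : (0 : ℝ) < b := by linarith
      rw [← mul_sub, abs_mul, abs_div, abs_of_pos hb0, ← sub_div, abs_div,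
        abs_of_pos (pow_pos hL0 k), hb3]
      have hy : 1 ≤ M / b := by rw [le_div_iff₀ hb0]; linarith
      have h3 := harm k (M / b) hy
      have h4 : Real.log (M / b) ^ k ≤ L ^ k := by
        refine pow_le_pow_left₀ (Real.log_nonneg hy) ?_ k
        rw [hL]
        exact Real.log_le_log (by positivity) (div_le_self hM0.le hb1)
      have h5 : |∑ a ∈ Finset.Icc 1 ⌊M / b⌋₊, 1 / (a : ℝ) * Real.log (M / b / a) ^ k -
          Real.log (M / b) ^ (k + 1) / (k + 1)| / L ^ k ≤ 1 + (1 / Real.log 2) ^ k := by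
        rw [div_le_iff₀ (pow_pos hL0 k)]
        have h6 : 1 ≤ (1 / Real.log 2) ^ k * L ^ k := by
          rw [← mul_pow]
          refine one_le_pow₀ ?_
          rw [one_div, inv_mul_eq_div, le_div_iff₀ hl2]
          linarith
        linarith
      have h7 : 0 ≤ Real.log b := Real.log_nonneg hb1
      have h8 : 0 ≤ |hA N b| / b := by positivity
      have h9 : 0 ≤ 1 + (1 / Real.log 2) ^ k := by positivity
      calc |hA N b| / b * (|∑ a ∈ Finset.Icc 1 ⌊M / b⌋₊, 1 / (a : ℝ) * Real.log (M / b / a) ^ k -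
          Real.log (M / b) ^ (k + 1) / (k + 1)| / L ^ k) ≤
            |hA N b| / b * (1 + (1 / Real.log 2) ^ k) := mul_le_mul_of_nonneg_left h5 h8
        _ ≤ |hA N b| / b * (1 + Real.log b) * (1 + (1 / Real.log 2) ^ k) := by
            refine mul_le_mul_of_nonneg_right ?_ h9
            nlinarith
    refine (Finset.sum_le_sum h1).trans ?_
    rw [← Finset.sum_mul]
    refine mul_le_mul_of_nonneg_right ?_ (by positivity)
    rw [hH]
    refine hs.sum_le_tsum _ fun m _ => ?_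
    rcases Nat.eq_zero_or_pos m with rfl | hm
    · simp
    have h3 : 0 ≤ Real.log m := Real.log_nonneg (by exact_mod_cast hm)
    positivity
  -- second estimate
  have e3 : |∑ b ∈ Finset.Icc 1 n, hA N b / b * (Real.log (M / b) ^ (k + 1) / (k + 1) / L ^ k) -
      (∑' m : ℕ, hA N m / m) * L * (1 / (k + 1))| ≤ H := by
    obtain ⟨w, hw⟩ : ∃ w : ℕ → ℝ, w = fun b => if b ∈ Finset.Icc 1 n then
        (Real.log (M / b) ^ (k + 1) / (k + 1) / L ^ k) else 0 := ⟨_, rfl⟩
    have h1 : ∑ b ∈ Finset.Icc 1 n, hA N b / b * (Real.log (M / b) ^ (k + 1) / (k + 1) / L ^ k) =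
        ∑' b : ℕ, hA N b / b * w b := by
      rw [tsum_eq_sum (s := Finset.Icc 1 n)]
      · refine Finset.sum_congr rfl fun b hb => ?_
        rw [hw]
        simp only [hb, if_true]
      · intro b hb
        rw [hw]
        simp only [hb, if_false, mul_zero]
    have hsw : Summable fun b : ℕ => hA N b / b * w b := by
      refine summable_of_ne_finset_zero (s := Finset.Icc 1 n) ?_
      intro b hb
      rw [hw]
      simp only [hb, if_false, mul_zero]
    have h3 : (∑' m : ℕ, hA N m / m) * L * (1 / (k + 1)) =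
        ∑' m : ℕ, hA N m / m * (L * (1 / (k + 1))) := by
      rw [tsum_mul_right, mul_assoc]
    rw [h1, h3, ← hsw.tsum_sub (hs2.mul_right _)]
    have h4 : ∀ b : ℕ, ‖hA N b / b * w b - hA N b / b * (L * (1 / (k + 1)))‖ ≤
        |hA N b| / b * (1 + Real.log b) := by
      intro b
      rcases Nat.eq_zero_or_pos b with rfl | hb
      · simp
      have hb1 : (1 : ℝ) ≤ b := by exact_mod_cast hb
      have hb0 : (0 : ℝ) < b := by linarith
      have hlb : 0 ≤ Real.log b := Real.log_nonneg hb1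
      rw [Real.norm_eq_abs, ← mul_sub, abs_mul, abs_div, abs_of_pos hb0]
      refine mul_le_mul_of_nonneg_left ?_ (by positivity)
      have hk1 : (0 : ℝ) < (k : ℝ) + 1 := by positivity
      have hLk : 0 < L ^ k := pow_pos hL0 k
      rw [hw]
      by_cases hbn : b ∈ Finset.Icc 1 n
      · simp only [hbn, if_true]
        obtain ⟨-, hb2, -⟩ := hbM b hbn
        have hx : Real.log (M / b) = L - Real.log b := by
          rw [hL, Real.log_div hM0.ne' hb0.ne']
        have hbL : Real.log b ≤ L := by rw [hL]; exact Real.log_le_log hb0 hb2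
        obtain ⟨x, hx'⟩ : ∃ x, x = Real.log b := ⟨_, rfl⟩
        rw [hx, ← hx']
        rw [← hx'] at hlb hbL
        have hbern : L ^ (k + 1) - (L - x) ^ (k + 1) ≤ (k + 1) * x * L ^ k := by
          have hB := one_add_mul_le_pow (a := -(x / L)) (by
            have : x / L ≤ 1 := by rw [div_le_one hL0]; exact hbL
            linarith) (k + 1)
          have h6 : (1 + -(x / L)) = (L - x) / L := by field_simp; ring
          rw [h6, div_pow, le_div_iff₀ (by positivity)] at hB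
          have h7 : (1 + ((k + 1 : ℕ) : ℝ) * -(x / L)) * L ^ (k + 1) =
              L ^ (k + 1) - (k + 1) * x * L ^ k := by
            push_cast
            rw [pow_succ]
            field_simp
            ring
          linarith
        have hle : (L - x) ^ (k + 1) ≤ L ^ (k + 1) :=
          pow_le_pow_left₀ (by linarith) (by linarith) _
        have e5 : (L - x) ^ (k + 1) / (k + 1) / L ^ k - L * (1 / (k + 1)) =
            -((L ^ (k + 1) - (L - x) ^ (k + 1)) / ((k + 1) * L ^ k)) := by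
          rw [pow_succ L k]
          field_simp
          ring
        rw [e5, abs_neg, abs_of_nonneg (div_nonneg (by linarith) (by positivity)),
          div_le_iff₀ (by positivity)]
        nlinarith
      · simp only [hbn, if_false]
        have hMb : M < b := by
          by_contra hcon
          push Not at hcon
          exact hbn (Finset.mem_Icc.2 ⟨hb, by rw [hn]; exact Nat.le_floor hcon⟩)
        have hbL : L ≤ Real.log b := by rw [hL]; exact Real.log_le_log hM0 hMb.le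
        rw [zero_sub, abs_neg, abs_of_nonneg (by positivity)]
        have : 1 / ((k : ℝ) + 1) ≤ 1 := by
          rw [div_le_one hk1]
          have : (0 : ℝ) ≤ k := Nat.cast_nonneg k
          linarith
        nlinarith
    rw [hH]
    exact tsum_of_norm_bounded hs.hasSum h4
  rw [← hn, ← hL, e1]
  have := abs_sub_le (∑ b ∈ Finset.Icc 1 n, hA N b / b *
        ((∑ a ∈ Finset.Icc 1 (n / b), 1 / (a : ℝ) * Real.log (M / b / a) ^ k) / L ^ k))
      (∑ b ∈ Finset.Icc 1 n, hA N b / b * (Real.log (M / b) ^ (k + 1) / (k + 1) / L ^ k))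
      ((∑' m : ℕ, hA N m / m) * L * (1 / (k + 1)))
  linarith

/-- the coefficients -/
theorem coef (hHQ : T_HQ) {N : ℕ} (hN : 1 ≤ N) (h2 : 2 ∣ N) {d : ℕ} (hd : Squarefree d)
    (hdN : Nat.Coprime d N) : gd d * Hq (d * N) ^ 2 = Hq N ^ 2 * (fA N d / d) := by
  obtain ⟨C, -, hC⟩ := hHQ
  have key : ∀ s : Finset ℕ, (∀ p ∈ s, p.Prime ∧ ¬ p ∣ N) →
      Hq ((∏ p ∈ s, p) * N) * ∏ p ∈ s, (1 - 2 / (p : ℝ)) = Hq N := by
    intro s
    induction s using Finset.induction_on with
    | empty => intro _; simp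
    | insert q s hq ih =>
      intro h
      have h3 := h q (Finset.mem_insert_self _ _)
      have h4 := ih fun p hp => h p (Finset.mem_insert_of_mem hp)
      have h5 : 1 ≤ (∏ p ∈ s, p) * N := by
        refine Nat.mul_pos (Finset.prod_pos fun p hp => ?_) hN
        exact (h p (Finset.mem_insert_of_mem hp)).1.pos
      have h6 : ¬ q ∣ (∏ p ∈ s, p) * N := by
        rw [h3.1.dvd_mul]
        rintro (h7 | h7)
        · obtain ⟨p, hp, hqp⟩ := (h3.1.prime.dvd_finsetProd_iff _).1 h7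
          have := (Nat.prime_dvd_prime_iff_eq h3.1
            (h p (Finset.mem_insert_of_mem hp)).1).1 hqp
          exact hq (this ▸ hp)
        · exact h3.2 h7
      have h7 := (hC _ h5 (Dvd.dvd.mul_left h2 _)).2.2.1 q h3.1 h6
      rw [Finset.prod_insert hq, Finset.prod_insert hq]
      have h8 : q * (∏ p ∈ s, p) * N = (∏ p ∈ s, p) * N * q := by ring
      rw [h8, ← mul_assoc, h7, h4]
  have hpr : ∀ p ∈ d.primeFactors, p.Prime ∧ ¬ p ∣ N := by
    intro p hp
    have h3 := Nat.prime_of_mem_primeFactors hp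
    refine ⟨h3, fun h4 => ?_⟩
    exact Nat.not_coprime_of_dvd_of_dvd h3.one_lt (Nat.dvd_of_mem_primeFactors hp) h4 hdN
  have h3 := key d.primeFactors hpr
  rw [Nat.prod_primeFactors_of_squarefree hd] at h3
  have h4 : ∏ p ∈ d.primeFactors, (1 - 2 / (p : ℝ)) ≠ 0 := by
    rw [Finset.prod_ne_zero_iff]
    intro p hp h0
    obtain ⟨h5, h6⟩ := hpr p hp
    have hp3 : 3 ≤ p := by
      rcases h5.two_le.lt_or_eq with h7 | h7
      · exact h7
      · exact absurd (h7 ▸ h2) h6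
    have hp3' : (3 : ℝ) ≤ p := by exact_mod_cast hp3
    have : 2 / (p : ℝ) ≤ 2 / 3 := div_le_div_of_nonneg_left (by norm_num) (by norm_num) hp3'
    linarith
  have h5 : fA N d / d * (∏ p ∈ d.primeFactors, (1 - 2 / (p : ℝ))) ^ 2 = gd d := by
    rw [fA_sqf N hd, gd, ← Finset.prod_pow]
    have h6 : (d : ℝ) = ∏ p ∈ d.primeFactors, (p : ℝ) := by
      conv_lhs => rw [← Nat.prod_primeFactors_of_squarefree hd]
      push_cast
      rfl
    rw [div_mul_eq_mul_div, ← Finset.prod_mul_distrib, h6, ← Finset.prod_div_distrib]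
    refine Finset.prod_congr rfl fun p hp => ?_
    obtain ⟨h7, h8⟩ := hpr p hp
    have hp0 : (p : ℝ) ≠ 0 := by exact_mod_cast h7.ne_zero
    have h9 : (1 - 2 / (p : ℝ)) ≠ 0 := (Finset.prod_ne_zero_iff.1 h4) p hp
    rw [ph, if_neg h8, div_mul_cancel₀ _ (pow_ne_zero 2 h9)]
    field_simp
  rw [← h3, ← h5]
  ring

theorem pf_DSU (hHQ : T_HQ) : T_DSU := by
  intro N F hN h2 hsq
  choose C hC0 hC using fun k => main_k hN h2 k
  refine ⟨Hq N ^ 2 * (∑ k ∈ Finset.range (F.natDegree + 1), |F.coeff k| * C k) + 1, by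
    have : 0 ≤ ∑ k ∈ Finset.range (F.natDegree + 1), |F.coeff k| * C k :=
      Finset.sum_nonneg fun k _ => mul_nonneg (abs_nonneg _) (hC0 k)
    positivity, ?_⟩
  intro M hM
  have e1 : ∑ d ∈ (Finset.Icc 1 ⌊M⌋₊).filter (fun d => Squarefree d ∧ Nat.Coprime d N),
      gd d * Hq (d * N) ^ 2 * F.eval (Real.log (M / d) / Real.log M) =
      Hq N ^ 2 * ∑ d ∈ Finset.Icc 1 ⌊M⌋₊, fA N d / d * F.eval (Real.log (M / d) / Real.log M) := by
    rw [Finset.mul_sum, Finset.sum_filter]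
    refine Finset.sum_congr rfl fun d hd => ?_
    have hd1 := (Finset.mem_Icc.1 hd).1
    split_ifs with h
    · rw [coef hHQ hN h2 h.1 h.2]; ring
    · have : fA N d = 0 := by
        by_cases hs : Squarefree d
        · have hc : ¬ Nat.Coprime d N := fun hc => h ⟨hs, hc⟩
          obtain ⟨p, hp, hpd, hpN⟩ := Nat.Prime.not_coprime_iff_dvd.1 hc
          rw [fA_sqf N hs]
          refine Finset.prod_eq_zero (Nat.mem_primeFactors.2 ⟨hp, hpd, by omega⟩) ?_
          rw [ph, if_pos hpN]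
        · exact fA_nsqf N hs
      rw [this]; simp
  have e2 : ∑ d ∈ Finset.Icc 1 ⌊M⌋₊, fA N d / d * F.eval (Real.log (M / d) / Real.log M) =
      ∑ k ∈ Finset.range (F.natDegree + 1), F.coeff k *
        ∑ d ∈ Finset.Icc 1 ⌊M⌋₊, fA N d / d * (Real.log (M / d) / Real.log M) ^ k := by
    simp_rw [Polynomial.eval_eq_sum_range, Finset.mul_sum]
    rw [Finset.sum_comm]
    refine Finset.sum_congr rfl fun k _ => Finset.sum_congr rfl fun d _ => ?_
    ring
  have e3 : ∫ t in (0 : ℝ)..1, F.eval t =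
      ∑ k ∈ Finset.range (F.natDegree + 1), F.coeff k * (1 / (k + 1)) := by
    simp_rw [Polynomial.eval_eq_sum_range]
    rw [intervalIntegral.integral_finsetSum]
    · refine Finset.sum_congr rfl fun k _ => ?_
      rw [intervalIntegral.integral_const_mul, integral_pow]
      simp
    · intro k _
      exact (continuous_const.mul (continuous_pow k)).intervalIntegrable _ _
  rw [e1, e2, e3, Sg, ← euler hN h2]
  have e4 : Hq N ^ 2 * (∑ k ∈ Finset.range (F.natDegree + 1), F.coeff k *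
        ∑ d ∈ Finset.Icc 1 ⌊M⌋₊, fA N d / d * (Real.log (M / d) / Real.log M) ^ k) -
      Hq N ^ 2 * (∑' n : ℕ, hA N n / n) * Real.log M *
        ∑ k ∈ Finset.range (F.natDegree + 1), F.coeff k * (1 / (k + 1)) =
      Hq N ^ 2 * ∑ k ∈ Finset.range (F.natDegree + 1), F.coeff k *
        (∑ d ∈ Finset.Icc 1 ⌊M⌋₊, fA N d / d * (Real.log (M / d) / Real.log M) ^ k -
          (∑' n : ℕ, hA N n / n) * Real.log M * (1 / (k + 1))) := by
    rw [mul_assoc (Hq N ^ 2), mul_assoc (Hq N ^ 2), ← mul_sub, Finset.mul_sum,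
      ← Finset.sum_sub_distrib]
    congr 1
    refine Finset.sum_congr rfl fun k _ => ?_
    ring
  rw [e4, abs_mul, abs_of_nonneg (by positivity)]
  have e5 : |∑ k ∈ Finset.range (F.natDegree + 1), F.coeff k *
        (∑ d ∈ Finset.Icc 1 ⌊M⌋₊, fA N d / d * (Real.log (M / d) / Real.log M) ^ k -
          (∑' n : ℕ, hA N n / n) * Real.log M * (1 / (k + 1)))| ≤
      ∑ k ∈ Finset.range (F.natDegree + 1), |F.coeff k| * C k := by
    refine (Finset.abs_sum_le_sum_abs _ _).trans (Finset.sum_le_sum fun k _ => ?_)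
    rw [abs_mul]
    exact mul_le_mul_of_nonneg_left (hC k M hM) (abs_nonneg _)
  have := mul_le_mul_of_nonneg_left e5 (sq_nonneg (Hq N))
  linarith

end Pool.Agent.H45.CN
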